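import Mathlib
import Pool.Agent.Q264.BaumSweet

/-!
# The zero positions of the generalized Baum-Sweet sequences are not `k`-regular

Let `r ≥ 2` and `b_n = 1` if the length of each block of zeros in the binary expansion of `n` is a multiple of `r` (in
particular `b_0 = 1`), and `b_n = 0` otherwise. Let `h` be the increasing enumeration of the `m` with `b_m = 0`. Then `h`
is not `k`-regular for any `k ≥ 2`.

The proof: if `h` is `k`-regular, then `u_n = (h_n - n) mod 2` has a finite `k`-kernel; hence there are at most `M` different
blocks of length `k^e` of `u`, with `M` independent of `e`, and so the starting points of the constant runs of length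
`≥ k^e` of `u` have at most `M + 1` residues modulo `k^e`. But the numbers with binary expansion `1 0^{r-1} 1 y`, where `y`
has `i` digits, are zeros, and the two preceding numbers are `1 0^r 1^i` (not a zero) and `1 0^r 1^{i-1} 0` (a zero); so
there is a run of length `≥ 2^i` which starts at the index `z_i = 2^{r+i} + 2^i - N_i`, where `N_i` is the number of
the `m < 2^{r+i} + 2^i` with `b_m = 1`. The sequence `N_i` is, up to a constant, a sum of two solutions of the recurrence
`x_{i+r} = x_{i+r-1} + x_i`, so it is purely periodic modulo every `m`. It follows that the `z_i`, `i ≥ i_0(e)`, have an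
unbounded number of residues modulo `k^e` as `e → ∞`, for `k` even (modulo powers of `2` only `N_i` matters) and for `k`
odd.
-/

set_option autoImplicit false

namespace Pool.Agent.Results.MP_0f6055_nt.ZeroPositionsNotRegular

/-- `[i, j)` is a block of zeros of the binary expansion of `n` (without leading zeros): the digits at the positions
`t`, `i ≤ t < j` (the position `t` belongs to `2 ^ t`) are `0`, the digit at the position `j` is `1`, and either `i = 0` or
the digit at the position `i - 1` is `1`. The length of the block is `j - i`. -/
def IsZeroBlock (n i j : ℕ) : Prop :=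
  i < j ∧ (∀ t, i ≤ t → t < j → n.testBit t = false) ∧ n.testBit j = true ∧ (i = 0 ∨ n.testBit (i - 1) = true)

/-- the set of the `n` with `b^{(r)}_n = 0`: some block of zeros of `n` has a length which is not a multiple of `r`. -/
def zeros (r : ℕ) : Set ℕ := {n | ∃ i j, IsZeroBlock n i j ∧ ¬ r ∣ j - i}

/-- `u` is `k`-regular: the `ℤ`-module generated by its `k`-kernel is finitely generated. -/
def IsRegular (k : ℕ) (u : ℕ → ℤ) : Prop :=
  (Submodule.span ℤ {f : ℕ → ℤ | ∃ i j : ℕ, j < k ^ i ∧ f = fun n => u (k ^ i * n + j)}).FG

/-- **The zero positions of the generalized Baum-Sweet sequences are not regular.** -/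
theorem result (r : ℕ) (hr : 2 ≤ r) : (∃ h : ℕ → ℕ, StrictMono h ∧ Set.range h = zeros r) ∧
    ∀ h : ℕ → ℕ, StrictMono h → Set.range h = zeros r → ∀ k : ℕ, 2 ≤ k → ¬ IsRegular k (fun n => (h n : ℤ)) := by
  classical
  have hz : zeros r = {m | ¬ Q264.BaumSweet.BS r m} := by
    ext m
    simp only [zeros, Q264.BaumSweet.BS, Set.mem_setOf_eq, not_forall]
    constructor
    · rintro ⟨i, j, h1, h2⟩
      exact ⟨i, j, h1, h2⟩
    · rintro ⟨i, j, h1, h2⟩
      exact ⟨i, j, h1, h2⟩
  have hinf := Q264.BaumSweet.zeros_infinite r hr
  rw [← hz] at hinf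
  refine ⟨⟨Nat.nth (· ∈ zeros r), Nat.nth_strictMono hinf, Nat.range_nth_of_infinite hinf⟩, ?_⟩
  intro h hmono hrange k hk
  exact Q264.BaumSweet.main r hr h hmono (by rw [hrange, hz]) k hk

end Pool.Agent.Results.MP_0f6055_nt.ZeroPositionsNotRegular
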